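import Pool.Agent.Lib.MP_b5021c_nt.IfaceB

/-!
# Row C0D: division of polynomials with unimodular zeros
-/

namespace Pool.Agent.B5.H79

open Pool.Agent.B5 Polynomial Filter Topology

theorem mem_closure_circle (a : ℂ) (ha : ‖a‖ = 1) :
    a ∈ closure {s : ℂ | ‖s‖ = 1 ∧ s ≠ a} := by
  have h0 : a ≠ 0 := by
    intro h
    rw [h, norm_zero] at ha
    exact zero_ne_one ha
  have ht : Tendsto (fun t : ℝ => a * Complex.exp (t * Complex.I)) (𝓝[≠] (0 : ℝ)) (𝓝 a) := by
    have hc : Continuous (fun t : ℝ => a * Complex.exp (t * Complex.I)) := by fun_prop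
    have h1 := hc.tendsto 0
    simp only [Complex.ofReal_zero, zero_mul, Complex.exp_zero, mul_one] at h1
    exact h1.mono_left nhdsWithin_le_nhds
  refine mem_closure_of_tendsto ht ?_
  have h2 : ∀ᶠ t : ℝ in 𝓝[≠] (0 : ℝ), |t| < 1 := by
    have h3 : ∀ᶠ t : ℝ in 𝓝 (0 : ℝ), |t| < 1 := by
      have := (continuous_abs (G := ℝ)).tendsto 0
      rw [abs_zero] at this
      exact this.eventually (gt_mem_nhds one_pos)
    exact h3.filter_mono nhdsWithin_le_nhds
  filter_upwards [h2, self_mem_nhdsWithin] with t ht1 ht0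
  refine ⟨by rw [norm_mul, ha, Complex.norm_exp_ofReal_mul_I, mul_one], ?_⟩
  intro h4
  have h5 : Complex.exp (t * Complex.I) = 1 := by
    have h6 : a * Complex.exp (t * Complex.I) = a * 1 := by rw [h4, mul_one]
    exact mul_left_cancel₀ h0 h6
  obtain ⟨n, hn⟩ := Complex.exp_eq_one_iff.mp h5
  have h7 : (t : ℂ) = ((n * (2 * Real.pi) : ℝ) : ℂ) := by
    have h8 : (t : ℂ) * Complex.I = ((n * (2 * Real.pi) : ℝ) : ℂ) * Complex.I := by
      rw [hn]
      push_cast
      ring
    exact mul_right_cancel₀ Complex.I_ne_zero h8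
  have h9 : t = n * (2 * Real.pi) := by exact_mod_cast h7
  have hn0 : n = 0 := by
    by_contra hne
    have h10 : (1 : ℝ) ≤ |(n : ℝ)| := by exact_mod_cast Int.one_le_abs hne
    have h11 : |t| = |(n : ℝ)| * (2 * Real.pi) := by
      rw [h9, abs_mul, abs_of_pos (by positivity : (0 : ℝ) < 2 * Real.pi)]
    have := Real.pi_gt_three
    nlinarith
  apply ht0
  rw [h9, hn0]
  simp

theorem c0d_aux : ∀ (n : ℕ) (u h : ℂ[X]), u.natDegree = n → u ≠ 0 →
    (∀ s : ℂ, u.eval s = 0 → ‖s‖ = 1) →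
    (∃ C : ℝ, ∀ s : ℂ, ‖s‖ = 1 → ‖h.eval s‖ ≤ C * ‖u.eval s‖) → u ∣ h := by
  intro n
  induction n with
  | zero =>
    intro u h hn hu _ _
    obtain ⟨c, hc⟩ := natDegree_eq_zero.mp hn
    have hc0 : c ≠ 0 := by
      rintro rfl
      apply hu
      rw [← hc, C_0]
    rw [← hc]
    exact (isUnit_C.mpr hc0.isUnit).dvd
  | succ n ih =>
    intro u h hn hu hroot hC
    obtain ⟨C0, hC⟩ := hC
    have hdeg : u.degree ≠ 0 := by
      rw [degree_eq_natDegree hu, hn]
      exact_mod_cast Nat.succ_ne_zero n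
    obtain ⟨a, ha⟩ := IsAlgClosed.exists_root u hdeg
    have hna : ‖a‖ = 1 := hroot a ha
    have hha : h.eval a = 0 := by
      have h1 := hC a hna
      rw [IsRoot.def.mp ha, norm_zero, mul_zero] at h1
      exact norm_le_zero_iff.mp h1
    obtain ⟨u1, hu1⟩ := dvd_iff_isRoot.mpr ha
    obtain ⟨h1, hh1⟩ := dvd_iff_isRoot.mpr (IsRoot.def.mpr hha)
    have hu10 : u1 ≠ 0 := by
      rintro rfl
      apply hu
      rw [hu1, mul_zero]
    have hnat : u1.natDegree = n := by
      have h2 := natDegree_mul (X_sub_C_ne_zero a) hu10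
      rw [← hu1, hn, natDegree_X_sub_C] at h2
      omega
    have hdv : u1 ∣ h1 := by
      refine ih u1 h1 hnat hu10 (fun s hs => hroot s (by rw [hu1, eval_mul, hs, mul_zero])) ⟨C0, ?_⟩
      have hcl : IsClosed {s : ℂ | ‖h1.eval s‖ ≤ C0 * ‖u1.eval s‖} := by
        apply isClosed_le
        · exact h1.continuous.norm
        · exact continuous_const.mul u1.continuous.norm
      have hsub : {s : ℂ | ‖s‖ = 1 ∧ s ≠ a} ⊆ {s : ℂ | ‖h1.eval s‖ ≤ C0 * ‖u1.eval s‖} := by
        rintro s ⟨hs1, hsa⟩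
        have h3 := hC s hs1
        rw [hu1, hh1, eval_mul, eval_mul, norm_mul, norm_mul] at h3
        have h4 : 0 < ‖(X - C a).eval s‖ := by
          rw [eval_sub, eval_X, eval_C, norm_pos_iff]
          exact sub_ne_zero.mpr hsa
        have h5 : ‖(X - C a).eval s‖ * ‖h1.eval s‖ ≤
            ‖(X - C a).eval s‖ * (C0 * ‖u1.eval s‖) := by
          calc _ ≤ _ := h3
            _ = _ := by ring
        exact le_of_mul_le_mul_left h5 h4
      intro s hs
      by_cases hsa : s = a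
      · rw [hsa]
        exact closure_minimal hsub hcl (mem_closure_circle a hna)
      · exact hsub ⟨hs, hsa⟩
    rw [hu1, hh1]
    exact mul_dvd_mul_left _ hdv

theorem c0d : C0S := fun u h hu hr hC => c0d_aux _ u h rfl hu hr hC

end Pool.Agent.B5.H79
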