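import Pool.Agent.Lib.MP_b5021c_nt.IfaceS1
import Pool.Agent.Lib.MP_b5021c_nt.B.H71.I1c

/-!
# Row COM of PaperS1.md: no common primitive factor of two closed elements
-/

namespace Pool.Agent.B5.H79

open Pool.Agent.B5 Pool.Agent.B5.H71 AddMonoidAlgebra
open scoped LaurentPolynomial

theorem prim_em {O : Type} [CommRing O] {L : Type} [AddCommGroup L] (K : Submodule ℤ L)
    (u : AO O K) (hu : Prim u) : Prim (em K u) := by
  intro c hc
  apply hu c
  obtain ⟨H, hH⟩ := hc
  refine ⟨res K H, ?_⟩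
  apply AddMonoidAlgebra.ext
  apply Finsupp.ext
  intro a
  rw [cst_mul_coeff, res_coeff, ← em_coeff K u a, hH, cst_mul_coeff]

theorem cst_sub {O : Type} [CommRing O] {L : Type} [AddCommGroup L] (c d : RO O) :
    (cst (c - d) : AO O L) = cst c - cst d := by
  simp [cst]

theorem com (h1 : C1bS) (_h2 : PrimS) (h3 : UnitAS) (_h4 : E2S) : ComS := by
  intro O _ _ _ _ P L _ _ _ _ _ phi D S i0 e₁ e₂ h hDD hray hne u hu hd1 hd2 hw
  have hD : ∀ a ∈ supp D, co phi i0 a = 0 ∨ co phi i0 a = 1 := fun a ha => hDD.bin a ha i0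
  have hdec := decomp (co phi i0) S h D hD
  obtain ⟨X, hX⟩ : ∃ X, X = res (Ker (co phi i0)) D := ⟨_, rfl⟩
  obtain ⟨Y, hY⟩ : ∃ Y, Y = res (Ker (co phi i0)) (single (-S) 1 * D) := ⟨_, rfl⟩
  rw [← hX, ← hY] at hdec
  have hV : ∀ e : (RO O)ˣ, cl (co phi i0) S h e D = X + cst (e : RO O) * Y := by
    intro e
    rw [hdec, map_add, map_mul, cl_em, cl_em, cl_single, prj_self, h, zpow_one, one_mul]
    rfl
  have hid : (cst ((e₁ : RO O) - (e₂ : RO O)) : AO O L) * D =
      (single S 1 - cst (e₂ : RO O)) * em (Ker (co phi i0)) (cl (co phi i0) S h e₁ D) -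
        (single S 1 - cst (e₁ : RO O)) * em (Ker (co phi i0)) (cl (co phi i0) S h e₂ D) := by
    rw [hV, hV]
    conv_lhs => rw [hdec]
    rw [map_add, map_add, map_mul, map_mul, em_cst, em_cst, cst_sub]
    ring
  have hdvd : em (Ker (co phi i0)) u ∣ (cst ((e₁ : RO O) - (e₂ : RO O)) : AO O L) * D := by
    rw [hid]
    exact dvd_sub (Dvd.dvd.mul_left (map_dvd _ hd1) _) (Dvd.dvd.mul_left (map_dvd _ hd2) _)
  have hne' : (e₁ : RO O) - (e₂ : RO O) ≠ 0 := sub_ne_zero.mpr (fun hh => hne (Units.ext hh))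
  obtain ⟨H, hH⟩ : em (Ker (co phi i0)) u ∣ D :=
    h1 O L (em (Ker (co phi i0)) u) D _ (prim_em _ u hu) hne' hdvd
  obtain ⟨a, ha, b, hb, hab⟩ := hw
  rcases hDD.irr.isUnit_or_isUnit hH with hu1 | hu1
  · obtain ⟨c, r, _, hc⟩ := (h3 O L _).mp hu1
    have key : ∀ x : Ker (co phi i0), x ∈ supp u → (x : L) = c := by
      intro x hx
      by_contra hxc
      apply hx
      rw [← em_coeff, hc, coeff_single]
      exact Finsupp.single_eq_of_ne hxc
    exact hab (Subtype.ext ((key a ha).trans (key b hb).symm))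
  · obtain ⟨c, r, _, hc⟩ := (h3 O L H).mp hu1
    have key : ∀ x : L, x ∈ supp D → co phi i0 (x - c) = 0 := by
      intro x hx
      by_contra hxc
      apply hx
      rw [hH, hc, coeff_mul_single_apply, em_coeff_not _ _ _ (by rwa [← sub_eq_add_neg]), zero_mul]
    have k0 := key 0 hDD.st.1
    have kS := key S hray.1
    rw [map_sub, map_zero] at k0
    rw [map_sub, h] at kS
    omega

end Pool.Agent.B5.H79
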