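import Pool.Agent.Lib.MP_b5021c_nt.IfaceS2a

/-!
# Row MEV of PaperS2.md: mean over the circle of a quotient without poles
-/

namespace Pool.Agent.B5.H79

open Pool.Agent.B5 Polynomial

theorem mev : MevS := by
  intro r s h
  have hd : DiffContOnCl ℂ (fun z => r.eval z / s.eval z) (Metric.ball (0 : ℂ) |1|) := by
    apply DifferentiableOn.diffContOnCl
    intro z hz
    have hz' : ‖z‖ ≤ 1 := by
      have := Metric.closure_ball_subset_closedBall hz
      simpa using this
    exact (r.differentiableAt.div s.differentiableAt (h z hz')).differentiableWithinAt
  exact hd.circleAverage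

end Pool.Agent.B5.H79
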