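import Pool.Agent.Lib.MP_b5021c_nt.IfaceS2a

/-!
# Row NP1 of PaperS2.md: numerical steps in class `P`
-/

namespace Pool.Agent.B5.H79

open Pool.Agent.B5

theorem g_le_log (g : ℕ) (x : ℝ) (_hx : 0 < x) (h : Real.sqrt 3 ^ (g + 1) ≤ x) :
    (g : ℝ) + 1 ≤ 2 * Real.log x := by
  have h3 : (1 : ℝ) ≤ Real.log 3 := by
    rw [Real.le_log_iff_exp_le (by norm_num)]
    have := Real.exp_one_lt_d9
    linarith
  have hs : (0 : ℝ) < Real.sqrt 3 := by positivity
  have h1 := Real.log_le_log (pow_pos hs (g + 1)) h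
  rw [Real.log_pow, Real.log_sqrt (by norm_num)] at h1
  push_cast at h1
  have hg : (0 : ℝ) ≤ (g : ℝ) + 1 := by positivity
  nlinarith

theorem log_le_log_add (a b : ℝ) (ha : 0 < a) (hb : 0 < b) :
    Real.log a ≤ Real.log b + a / b - 1 := by
  have h := Real.log_le_sub_one_of_pos (div_pos ha hb)
  rw [Real.log_div ha.ne' hb.ne'] at h
  linarith

theorem np1 : Np1S := by
  intro θ hθ
  have hθ0 : (0 : ℝ) < θ := by linarith
  refine ⟨?_, ?_, ?_, ?_⟩
  · intro θ' h1 h2
    unfold bPS
    have h3 := log_le_log_add θ' θ (by linarith) hθ0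
    have h4 : θ' / θ ≤ 1 - 1 / 2 * (1 / θ) + 8 * (1 / θ) ^ 2 := by
      rw [div_le_iff₀ hθ0]
      have : (1 - 1 / 2 * (1 / θ) + 8 * (1 / θ) ^ 2) * θ = θ - 1 / 2 + 8 / θ := by
        field_simp
      rw [this]
      exact h2
    have h5 : 8 / θ = 8 * (1 / θ) := by ring
    have h6 : 1 / θ ≤ 1 / 100 := one_div_le_one_div_of_le (by norm_num) hθ
    have h7 : 0 < 1 / θ := by positivity
    rw [h5] at h2
    nlinarith
  · intro θ' r h1 h2 h3
    unfold bPS
    have h4 : Real.log θ' ≤ Real.log θ - r := by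
      have := Real.log_le_log (by linarith) h3
      rwa [Real.log_mul hθ0.ne' (Real.exp_pos _).ne', Real.log_exp, ← sub_eq_add_neg] at this
    have h5 : Real.exp (-r) ≤ θ / (θ + 1) := by
      have h6 : Real.exp (-r) ≤ Real.exp (-(1 / θ)) := Real.exp_le_exp.mpr (by linarith)
      have h7 : Real.exp (-(1 / θ)) ≤ θ / (θ + 1) := by
        rw [Real.exp_neg]
        have h8 := Real.add_one_le_exp (1 / θ)
        have h9 : (θ / (θ + 1)) = (1 / θ + 1)⁻¹ := by
          field_simp
          ring
        rw [h9]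
        exact inv_anti₀ (by positivity) h8
      exact h6.trans h7
    have h6 : θ' ≤ θ * (θ / (θ + 1)) := h3.trans (mul_le_mul_of_nonneg_left h5 hθ0.le)
    have h7 : θ * (θ / (θ + 1)) = θ - 1 + 1 / (θ + 1) := by
      field_simp
      ring
    have h8 : 1 / (θ + 1) ≤ 1 / θ := one_div_le_one_div_of_le hθ0 (by linarith)
    have h9 : 0 < 1 / θ := by positivity
    rw [h7] at h6
    nlinarith
  · intro θ' l g h1 h2 h3 h4
    unfold bPS
    have h0 : (0 : ℝ) < θ' := by linarith
    have hlog' : 0 ≤ Real.log θ' := Real.log_nonneg h1.le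
    have hg : (g : ℝ) ≤ 4 ∨ (g : ℝ) + 1 ≤ 2 * Real.log θ' := by
      rcases h4 with h4 | h4
      · left
        exact_mod_cast h4
      · right
        exact g_le_log g θ' h0 h4
    by_cases hc : θ' ≤ θ / 2
    · have h5 : Real.log θ' + Real.log 2 ≤ Real.log θ := by
        rw [← Real.log_mul h0.ne' (by norm_num)]
        exact Real.log_le_log (by positivity) (by linarith)
      have h6 := Real.log_two_gt_d9
      have h7 : (l : ℝ) + 2 * θ' ≤ 2 * θ + 2 - 2 * (θ' - 1) := by
        have h8 : ((l : ℝ) + 2 * θ') * θ' ≤ (2 * θ + 2 - 2 * (θ' - 1)) * θ' := by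
          nlinarith [mul_nonneg (sub_nonneg.mpr h1.le) (sub_nonneg.mpr hc)]
        exact le_of_mul_le_mul_right h8 h0
      have h8 := Real.log_le_sub_one_of_pos h0
      rcases hg with hg | hg
      · linarith
      · linarith
    · push Not at hc
      have h5 := log_le_log_add θ' θ h0 hθ0
      have h6 : θ' / θ ≤ 87 / 100 := by
        rw [div_le_iff₀ hθ0]
        linarith
      have h7 : (l : ℝ) ≤ 4 := by
        have h8 : (l : ℝ) * θ' ≤ 4 * θ' := by linarith
        exact le_of_mul_le_mul_right h8 h0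
      have h8 : Real.log θ' ≤ θ / 8 + 11 / 10 := by
        have h9 := log_le_log_add θ' 8 h0 (by norm_num)
        have h10 : Real.log 8 = 3 * Real.log 2 := by
          rw [show (8 : ℝ) = 2 ^ 3 by norm_num, Real.log_pow]
          norm_num
        have h11 := Real.log_two_lt_d9
        rw [h10] at h9
        linarith
      rcases hg with hg | hg
      · linarith
      · linarith
  · intro l g h1 h2
    unfold bPS
    have hlog : 0 ≤ Real.log θ := Real.log_nonneg (by linarith)
    rcases h2 with h2 | h2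
    · have : (g : ℝ) ≤ 4 := by exact_mod_cast h2
      linarith
    · have h3 := g_le_log g (θ + 1) (by linarith) h2
      have h4 := log_le_log_add (θ + 1) θ (by linarith) hθ0
      have h5 : (θ + 1) / θ ≤ 2 := by
        rw [div_le_iff₀ hθ0]
        linarith
      linarith

end Pool.Agent.B5.H79
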