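import Pool.Agent.Lib.MP_b5021c_nt.IfaceS4a

/-!
# Row NP3 of PaperS4.md: numerical steps in class `P`
-/

namespace Pool.Agent.B5.H79

open Pool.Agent.B5

theorem two_mul_add_one_le_sqrt3_pow (g : ℕ) : 2 * (g : ℝ) + 1 ≤ Real.sqrt 3 ^ (g + 1) := by
  have h3 : Real.sqrt 3 * Real.sqrt 3 = 3 := Real.mul_self_sqrt (by norm_num)
  have hs : (17 / 10 : ℝ) ≤ Real.sqrt 3 := by
    rw [Real.le_sqrt (by norm_num) (by norm_num)]
    norm_num
  induction g with
  | zero => norm_num
  | succ n ih =>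
    rcases Nat.eq_zero_or_pos n with hn | hn
    · subst hn
      norm_num
    · have hn' : (1 : ℝ) ≤ n := by exact_mod_cast hn
      have h4 : Real.sqrt 3 ^ (n + 1 + 1) = Real.sqrt 3 ^ (n + 1) * Real.sqrt 3 := pow_succ _ _
      rw [h4]
      push_cast
      have h5 : (2 * (n : ℝ) + 1) * Real.sqrt 3 ≤ Real.sqrt 3 ^ (n + 1) * Real.sqrt 3 :=
        mul_le_mul_of_nonneg_right ih (by positivity)
      nlinarith

theorem g_le_half (g : ℕ) (x : ℝ) (h : Real.sqrt 3 ^ (g + 1) ≤ x) :
    (g : ℝ) ≤ (x - 1) / 2 := by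
  have := two_mul_add_one_le_sqrt3_pow g
  linarith

theorem np3 : Np3S := by
  intro θ θ' l hθ h1 hl
  have h0 : (0 : ℝ) < θ' := by linarith
  have hb1 : bP3 θ' ≤ 2400 * θ' := min_le_left _ _
  have hb2 : bP3 θ' ≤ 2 * θ' + 480000 := min_le_right _ _
  have hl0 : (0 : ℝ) ≤ l := Nat.cast_nonneg l
  have hl1 : (l : ℝ) ≤ 2 * θ := by nlinarith
  -- division by the big zero
  have key : ∀ y : ℝ, y * θ' + 2 * θ + 2 * θ' ^ 2 ≤ 2 * θ * θ' → y + l + 2 * θ' ≤ 2 * θ := by
    intro y hy
    have h : (y + l + 2 * θ') * θ' ≤ (2 * θ) * θ' := by nlinarith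
    exact le_of_mul_le_mul_right h h0
  refine ⟨?_, ?_, ?_⟩
  · intro h2
    rcases lt_or_ge θ' 2 with hc | hc
    · linarith
    · have h3 : θ' ≤ 7072 / 10000 * θ := by
        by_contra hcon
        push Not at hcon
        nlinarith
      have h4 := mul_nonneg (sub_nonneg.mpr hc) (sub_nonneg.mpr h3)
      have h5 := key 2 (by nlinarith)
      linarith
  · intro h2
    rcases lt_or_ge θ' 2 with hc | hc
    · linarith
    · have h4 := mul_nonneg (sub_nonneg.mpr hc) (sub_nonneg.mpr h2)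
      have h5 := key 13 (by nlinarith)
      linarith
  · intro g h2 h3
    have hg : (g : ℝ) ≤ 4 ∨ (g : ℝ) ≤ (θ' - 1) / 2 := by
      rcases h3 with h3 | h3
      · left
        exact_mod_cast h3
      · right
        exact g_le_half g θ' h3
    rcases lt_or_ge θ' 2 with hc | hc
    · rcases hg with hg | hg
      · linarith
      · linarith
    · have h4 := mul_nonneg (sub_nonneg.mpr hc) (sub_nonneg.mpr h2)
      rcases hg with hg | hg
      · have h5 := key 6 (by nlinarith)
        linarith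
      · have h5 := key (2 + (θ' - 1) / 2) (by nlinarith)
        linarith

end Pool.Agent.B5.H79
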