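import Pool.Agent.Lib.MP_b5021c_nt.IfaceE3

/-!
# Row E3_QC of PaperE3.md: existence of the context
-/

namespace Pool.Agent.B5.H79

open Pool.Agent.B5

theorem qc3 (h1 : SmallS) (h2 : QstS) : Qc3S := by
  intro O _ _ _ _ P L _ _ _ _ _ phi D S i0 eta h c n G hFD hne
  obtain ⟨l, hl⟩ := hne
  have hl' : ¬ 1 < M ((G l).coeff 0) ∧ ¬ Pure phi S i0 (G l) := by
    classical
    have := hl
    unfold snp at this
    simpa using this
  obtain ⟨_, _, h3⟩ := h1 O P L phi D S i0 eta h c n G hFD l hl'.1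
  obtain ⟨b, j, e, hsp⟩ := h3 hl'.2
  have hj : co (phK phi (co phi i0)) j b = 1 := hsp.bj
  obtain ⟨q, hq0, hxe, hrq, _, _⟩ := h2 O P L phi D S i0 eta h c n G hFD l b j e hsp hj
  exact ⟨l, b, j, e, hj, q, ⟨hFD, hsp, hq0, hxe, hrq⟩⟩

end Pool.Agent.B5.H79
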